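import Pool.Agent.H95.ILV.Targets

/-!
# MP_de9001_an: monotonicity and ratios of the explicit levels
-/

set_option autoImplicit false

open MeasureTheory AddCircle Filter Topology

namespace Pool.Agent.H49.ILV

open Pool.Agent.H87.Synth Pool.Agent.H23.Synth Pool.Agent.H95.ILV

theorem pf_KC (h1 : T_KA) (h2 : T_KB) : T_KC := by
  intro i j
  obtain ⟨ha, hb, hc⟩ := h2 i j
  have hm1 : 1 ≤ mm i := Nat.le_add_left 1 _
  have hbb : bb i j < bb i (j + 1) := by
    unfold bb
    have e1 : (j + 1) ^ 2 < (j + 1 + 1) ^ 2 := Nat.pow_lt_pow_left (by omega) (by norm_num)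
    exact Nat.add_lt_add_of_lt_of_le e1 (Nat.mul_le_mul_left _ (by omega))
  have hT : 0 < 2 ^ Tt i := by positivity
  set P := 2 ^ (j / mm i) with hP
  have hP1 : 1 ≤ P := Nat.one_le_two_pow
  obtain ⟨D, hD⟩ : ∃ D, bb i (j + 1) = bb i j + D := ⟨bb i (j + 1) - bb i j, by omega⟩
  have hD1 : 1 ≤ D := by omega
  have hkk : kk i (j + 1) = kk i j + 2 ^ Tt i * (Hh i * P + D) := by
    unfold kk
    rw [ha, hD]
    ring
  have hdiff : kk i (j + 1) - kk i j = 2 ^ Tt i * (Hh i * P + D) := by omega
  refine ⟨?_, fun hj => ?_⟩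
  · rw [hkk]
    have : 0 < 2 ^ Tt i * (Hh i * P + D) := Nat.mul_pos hT (by omega)
    omega
  · obtain ⟨-, -, h3⟩ := h1 i
    have h4 := h3 j (by omega)
    have h5 := h3 (j + 1) (by omega)
    rw [hD] at h5
    rw [hdiff]
    set H := Hh i with hH
    set m := mm i with hm
    set A := aa i j with hA
    set B := bb i j with hB
    have hk : kk i j = 2 ^ Tt i * (H * A + B) := rfl
    rw [hk]
    constructor
    · have e1 : H * A + B ≤ H * (A + P) := by
        have : H * 1 ≤ H * P := Nat.mul_le_mul_left _ hP1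
        rw [Nat.mul_add]
        omega
      have e2 : H * (A + P) ≤ H * (P * (2 * m)) := Nat.mul_le_mul_left _ hc
      have e3 : H * A + B ≤ 2 * m * (H * P + D) := by
        calc H * A + B ≤ H * (P * (2 * m)) := le_trans e1 e2
          _ = 2 * m * (H * P) := by ring
          _ ≤ 2 * m * (H * P + D) := Nat.mul_le_mul_left _ (by omega)
      calc 2 ^ Tt i * (H * A + B) ≤ 2 ^ Tt i * (2 * m * (H * P + D)) := Nat.mul_le_mul_left _ e3
        _ = 2 * m * (2 ^ Tt i * (H * P + D)) := by ring
    · have e0 : m ≤ A := by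
        calc m = 1 * m := by ring
          _ ≤ P * m := Nat.mul_le_mul_right _ hP1
          _ ≤ A := hb
      have e1 : H * (P * m) ≤ H * A := Nat.mul_le_mul_left _ hb
      have e2 : m * D ≤ A * H := Nat.mul_le_mul e0 (by omega)
      have e3 : m * (H * P + D) ≤ 2 * (H * A + B) := by
        calc m * (H * P + D) = H * (P * m) + m * D := by ring
          _ ≤ H * A + A * H := Nat.add_le_add e1 e2
          _ = 2 * (H * A) := by ring
          _ ≤ 2 * (H * A + B) := Nat.mul_le_mul_left _ (by omega)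
      calc m * (2 ^ Tt i * (H * P + D)) = 2 ^ Tt i * (m * (H * P + D)) := by ring
        _ ≤ 2 ^ Tt i * (2 * (H * A + B)) := Nat.mul_le_mul_left _ e3
        _ = 2 * (2 ^ Tt i * (H * A + B)) := by ring

end Pool.Agent.H49.ILV
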